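import Mathlib
import Pool.Agent.Helper736_CG.Main
import Pool.Agent.Helper736_CG.Long

set_option autoImplicit false

/-!
# Large prime gaps along Collatz trajectories

Let `T n = n / 2` for even `n` and `T n = (3 n + 1) / 2` for odd `n`, for all integers `n`, and let
`f(x) = log x (log₂ x)² log₄ x / (log₃ x)²`, the size of the largest prime gaps known from the starting files, and
`g(x) = log x log₂ x log₄ x / log₃ x`, the published size (iterated natural logarithms).

Each of the first `L` parities of the trajectory of `n` can be prescribed (Terras): this prescribes the residue of `n`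
modulo `2 ^ L`, and on a residue class modulo `2 ^ L` the iterates `T^i n`, `i ≤ L`, are linear forms with the
coefficients `3 ^ s 2 ^ (L - i)`. We show that one can have a large prime-free interval around EVERY term of such a
piece of a trajectory, with arbitrary radii `K 0, ..., K L` whose sum is of the order of the largest known prime
gaps: sum `≪ g(X)` for every parity word (part 1), sum `≪ f(X)` if `n` shadows an integer `a` with small iterates,
for example `a = -1`, in which case the trajectory climbs from `n` to about `(3 / 2) ^ L n` (part 3). In particular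
(part 2) every parity word of length `L` is the parity word of some `n < 2 ^ ((1 + ε) L)` such that all the terms
`n, T n, ..., T^L n` and their neighbours up to the distance `K` are composite; here the number `L` of steps is
almost the largest possible, because an integer `n > 0` has a prescribed parity word of length `L` only if it is
in a class modulo `2 ^ L`. Part 4 has a gap of the size `f` around one term `T^l n` in a short interval, for every
parity word, which prescribes both the future and the past of this term.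

The proof uses the theorem of helper123's hand-in `MP_f9960f_nt.SimultaneousMultiples` on arbitrary finite families
of linear forms, and the starting file `MP_3bc45c_nt.RecordGapsAtPrescribedPlaces` for part 4.
-/

namespace Pool.Agent.Results.MP_711652_nt.GapsAlongCollatzTrajectories

open Finset

/-- The record scale `f(x) = log x (log₂ x)² log₄ x / (log₃ x)²` (iterated natural logarithms). -/
noncomputable def f (x : ℝ) : ℝ :=
  Real.log x * (Real.log (Real.log x)) ^ 2 * Real.log (Real.log (Real.log (Real.log x))) /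
    (Real.log (Real.log (Real.log x))) ^ 2

/-- The published record scale `g(x) = log x log₂ x log₄ x / log₃ x`. -/
noncomputable def g (x : ℝ) : ℝ :=
  Real.log x * Real.log (Real.log x) * Real.log (Real.log (Real.log (Real.log x))) /
    Real.log (Real.log (Real.log x))

/-- The Collatz map on the integers: `n ↦ n / 2` (`n` even), `n ↦ (3 n + 1) / 2` (`n` odd). -/
def T (n : ℤ) : ℤ := if n % 2 = 0 then n / 2 else (3 * n + 1) / 2

/-- The first `L` terms `n, T n, ...` of the trajectory of `n` have the parities given by `w` (`true`: odd). -/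
def Follows (w : ℕ → Bool) (L : ℕ) (n : ℤ) : Prop := ∀ i < L, (T^[i] n % 2 = 1 ↔ w i = true)

/-- The number of the letters `true` (odd terms) among `w 0, ..., w (i - 1)`. -/
def ones (w : ℕ → Bool) (i : ℕ) : ℕ := ((range i).filter (fun j => w j = true)).card

/-- No integer at distance at most `K` from `y` is a prime or minus a prime. -/
def PrimeFree (K : ℕ) (y : ℤ) : Prop := ∀ j : ℤ, |j| ≤ K → ¬ (y + j).natAbs.Prime

/-- Large prime gaps along Collatz trajectories: (1) prescribed parity words, (2) the special case of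
bounded radii, (3) shadowing, (4) one term in a short interval. -/
theorem result :
    (∃ c : ℝ, 0 < c ∧ ∃ X₀ : ℝ, ∀ X : ℝ, X₀ ≤ X → ∀ (L : ℕ) (w : ℕ → Bool) (K : ℕ → ℕ),
      ∑ i ∈ range (L + 1), (2 * (K i : ℝ) + 1) ≤ c * g X → ∀ z : ℤ, ∃ n : ℤ,
        2 ^ L * (z : ℝ) < n ∧ (n : ℝ) < 2 ^ L * (z + X + 1) ∧ Follows w L n ∧
          ∀ i ≤ L, PrimeFree (K i) (T^[i] n)) ∧
    (∀ ε : ℝ, 0 < ε → ∀ K : ℕ, ∃ L₀ : ℕ, ∀ L : ℕ, L₀ ≤ L → ∀ w : ℕ → Bool, ∃ n : ℤ,
      2 ^ L < n ∧ (n : ℝ) < (2 : ℝ) ^ ((1 + ε) * L) ∧ Follows w L n ∧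
        ∀ i ≤ L, PrimeFree K (T^[i] n)) ∧
    (∃ c : ℝ, 0 < c ∧ ∃ X₀ : ℝ, ∀ X : ℝ, X₀ ≤ X → ∀ (L : ℕ) (a : ℤ) (K : ℕ → ℕ),
      (∀ i ≤ L, Real.log X ≤ K i ∧ |T^[i] a| ≤ K i) →
      ∑ i ∈ range (L + 1), (K i : ℝ) ≤ c * f X → ∀ z : ℤ, ∃ t : ℤ,
        (z : ℝ) + X / 4 < t ∧ (t : ℝ) ≤ z + X ∧
          ∀ i ≤ L, (∃ s ≤ i, T^[i] (a + 2 ^ L * t) = T^[i] a + 3 ^ s * 2 ^ (L - i) * t) ∧
            PrimeFree (K i) (T^[i] (a + 2 ^ L * t))) ∧
    (∀ θ ε : ℝ, 0 < θ → θ < 1 → 0 < ε → ∃ κ : ℝ, 0 < κ ∧ ∃ M₀ : ℕ, ∀ M : ℕ, M₀ ≤ M →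
      ∀ (w : ℕ → Bool) (L l : ℕ), l ≤ L → (3 : ℝ) ^ ones w l * 2 ^ (L - l) ≤ (M : ℝ) ^ θ →
      ∃ m : ℤ, Follows w L m ∧ (M : ℤ) < T^[l] m ∧ ((T^[l] m : ℤ) : ℝ) ≤ M + (M : ℝ) ^ (θ + ε) ∧
        ∀ p : ℕ, p.Prime → κ * f M < |(p : ℝ) - (T^[l] m : ℤ)|) := by
  refine ⟨Pool.Agent.Helper736_CG.words, Pool.Agent.Helper736_CG.long_words, ?_, ?_⟩
  · obtain ⟨c, hc, X₀, h⟩ := Pool.Agent.Helper736_CG.shadow
    refine ⟨c, hc, X₀, fun X hX L a K h1 h2 z => ?_⟩
    obtain ⟨t, ht1, ht2, ht3⟩ := h X hX L a K h1 h2 z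
    refine ⟨t, ht1, ht2, fun i hi => ?_⟩
    obtain ⟨h3, h4⟩ := ht3 i hi
    refine ⟨⟨Pool.Agent.Helper736_CG.ones (Pool.Agent.Helper736_CG.word a) i,
      Pool.Agent.Helper736_CG.ones_le _ i, ?_⟩, h4⟩
    have h5 : ((Pool.Agent.Helper736_CG.al (Pool.Agent.Helper736_CG.word a) L i : ℕ) : ℤ) =
        3 ^ Pool.Agent.Helper736_CG.ones (Pool.Agent.Helper736_CG.word a) i * 2 ^ (L - i) := by
      unfold Pool.Agent.Helper736_CG.al
      push_cast
      rfl
    rw [← h5]
    exact h3
  · intro θ ε hθ hθ1 hε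
    obtain ⟨κ, hκ, M₀, h⟩ := Pool.Agent.Helper736_CG.main θ ε hθ hθ1 hε
    refine ⟨κ, hκ, M₀, fun M hM w L l hl hd => ?_⟩
    obtain ⟨m, h1, h2, h3, h4⟩ := h M hM w L l hl hd
    have h5 : T^[l] (m : ℤ) = (Pool.Agent.Helper736_CG.T^[l] m : ℕ) :=
      Pool.Agent.Helper736_CG.iterate_natCast l m
    refine ⟨m, Pool.Agent.Helper736_CG.followsZ_natCast h1, ?_, ?_, fun p hp => ?_⟩
    · rw [h5]; exact_mod_cast h2
    · rw [h5]; exact_mod_cast h3
    · rw [h5]
      have := h4 p hp
      exact_mod_cast this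

end Pool.Agent.Results.MP_711652_nt.GapsAlongCollatzTrajectories
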