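import Pool.Agent.Helper341.Metric.PoisFwd
import Pool.Agent.H622R3.SP.Mult
import Pool.Agent.H749R6.CM.Fin
import Pool.Agent.Helper341.Metric.BC
import Pool.Agent.Helper341.Metric.Glue

/-!
# Exactly `m` primes just above `k x`, and a gap below, for many `k ≤ x ^ ε` and nearly all real `x`

Let `λ > 0`, `Λ ≥ 0`, let `m ≥ 0` be an integer and `0 < ε < 1`. There are `c, κ > 0` and a measurable set `E`
of real numbers with the following properties.

* `E` is small: the measure of `E ∩ [0, X]` is at most `X ^ (1 - κ)` for large `X`; moreover, for every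
  sequence with `b n / log n → ∞` and for almost every `α > 1` the points `α ^ b n` are outside `E` for all
  large `n`;
* for all large real `x` outside `E`, at least `c x ^ ε` of the positive integers `k ≤ x ^ ε` are such that,
  with `y = k x`, there are exactly `m` primes in `(y, y + λ log y]` and no prime in `(y - Λ log y, y]`.

Proof. The integers `n` such that all `y` between `n` and `n + 1` have this property have positive lower
density (`Pool.Agent.Helper341.Metric.densP`, from the starting library: Maynard's sieve, after Freiberg). For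
an arbitrary set of positive lower density the theorem on multiples in one dyadic interval is
`Pool.Agent.H622R3.SP.mult` (starting library). New here are the forward windows for real numbers, the set
`E` for all intervals at once and the lemma of Borel and Cantelli for the powers.
-/

set_option autoImplicit false

open Filter Topology MeasureTheory Pool.Agent.Helper341.Metric

namespace Pool.Agent.Results.MP_711652_nt.MultiplesOfReals

theorem result (lam Lam : ℝ) (m : ℕ) (hlam : 0 < lam) (hLam : 0 ≤ Lam) (ε : ℝ) (hε : 0 < ε)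
    (hε1 : ε < 1) :
    ∃ c κ X₀ : ℝ, 0 < c ∧ 0 < κ ∧ ∃ E : Set ℝ, MeasurableSet E ∧
      (∀ X : ℝ, X₀ ≤ X → volume (E ∩ Set.Icc 0 X) ≤ ENNReal.ofReal (X ^ (1 - κ))) ∧
      (∀ b : ℕ → ℝ, Tendsto (fun n : ℕ => b n / Real.log n) atTop atTop →
        ∀ᵐ α : ℝ, 1 < α → ∀ᶠ n : ℕ in atTop, α ^ b n ∉ E) ∧
      ∀ x : ℝ, X₀ ≤ x → x ∉ E →
        c * x ^ ε ≤ ({k : ℕ | 0 < k ∧ (k : ℝ) ≤ x ^ ε ∧
          Pattern lam Lam m (k * x)}.ncard : ℝ) := by
  classical
  obtain ⟨c, hc, S, hS, hdens⟩ := densP Pool.Agent.H749R6.CM.pois lam Lam m hlam hLam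
  have hdens' : ∀ᶠ N : ℕ in atTop,
      c * N ≤ (((Finset.range N).filter (fun m => m ∈ S)).card : ℝ) := by
    filter_upwards [hdens] with N hN
    convert hN
  obtain ⟨c₁, κ₁, hc₁, hκ₁, Y₀, hY⟩ := Pool.Agent.H622R3.SP.mult S c hc hdens' ε hε hε1
  obtain ⟨c', κ, X₀, hc', hκ, hκ1, E, hE1, hE2, hE3⟩ :=
    glue (fun y => ∃ m ∈ S, (m : ℝ) < y ∧ y < m + 1) ε hε hε1 c₁ κ₁ Y₀ hc₁ hκ₁ hY
  refine ⟨c', κ, X₀, hc', hκ, E, hE1, hE2, fun b hb => bc E κ X₀ hκ hκ1 hE2 b hb, ?_⟩
  intro x hx hxE
  refine (hE3 x hx hxE).trans ?_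
  apply Nat.cast_le.2
  unfold cnt
  apply Set.ncard_le_ncard
  · rintro k ⟨h1, m, h2, h3, h4⟩
    refine ⟨?_, h1, hS m h2 _ h3 h4⟩
    rcases Nat.eq_zero_or_pos k with h5 | h5
    · exfalso
      rw [h5] at h3
      have h6 : (0 : ℝ) ≤ m := Nat.cast_nonneg m
      push_cast at h3
      linarith
    · exact h5
  · exact (Set.finite_Iic ⌊x ^ ε⌋₊).subset fun k hk => Nat.le_floor hk.2.1

end Pool.Agent.Results.MP_711652_nt.MultiplesOfReals
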