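import Mathlib
import Pool.Agent.helper391_PN.Main

set_option autoImplicit false

/-!
# Prime gaps of record length around practical numbers

A positive integer `n` is practical if every `j ≤ n` is a sum of distinct divisors of `n`. The practical
numbers resemble the primes in their distribution (their counting function is `~ c x / log x`), and it is known
(Hausman and Shapiro) that every interval `(M, M + 2 √M]` contains one. We show that every interval
`(M, M + M^(1/2 + ε)]` contains a practical number in the middle of a gap between primes of record size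
`f(M) = log M (log₂ M)² log₄ M / (log₃ M)²` (iterated natural logarithms).

Proof. If `m` is odd and `m ≤ 2^(k+1)`, then `2^k m` is practical. With `4^k` about `M` this says that all the
integers `n ≡ 2^k (mod 2^(k+1))` near `M` are practical, and we use the theorem of the starting files on record
gaps around integers of a residue class to a large modulus (`MP_3bc45c_nt.RecordGapsAtPrescribedPlaces`).
-/

namespace Pool.Agent.Results.MP_711652_nt.PracticalNumbersInRecordGaps

/-- The record scale `f(x) = log x (log₂ x)² log₄ x / (log₃ x)²` (iterated natural logarithms). -/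
noncomputable def f (x : ℝ) : ℝ :=
  Real.log x * (Real.log (Real.log x)) ^ 2 * Real.log (Real.log (Real.log (Real.log x))) /
    (Real.log (Real.log (Real.log x))) ^ 2

/-- A positive integer `n` is practical if every `j ≤ n` is a sum of distinct divisors of `n`. -/
def Practical (n : ℕ) : Prop :=
  0 < n ∧ ∀ j : ℕ, j ≤ n → ∃ D : Finset ℕ, D ⊆ n.divisors ∧ ∑ d ∈ D, d = j

/-- For `ε > 0` there are `κ > 0` and `M₀` such that for all `M ≥ M₀` there is a practical number `n` with
`M < n ≤ M + M^(1/2 + ε)` and `|p - n| > κ f(M)` for every prime `p`. -/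
theorem result (ε : ℝ) (hε : 0 < ε) :
    ∃ κ : ℝ, 0 < κ ∧ ∃ M₀ : ℕ, ∀ M : ℕ, M₀ ≤ M → ∃ n : ℕ, M < n ∧
      (n : ℝ) ≤ M + (M : ℝ) ^ (1 / 2 + ε) ∧ Practical n ∧
      ∀ p : ℕ, p.Prime → κ * f M < |(p : ℝ) - n| := by
  obtain ⟨κ, hκ, M₀, h⟩ := Pool.Agent.helper391_PN.main ε hε
  refine ⟨κ, hκ, M₀, fun M hM => ?_⟩
  obtain ⟨n, h1, h2, h3, h4⟩ := h M hM
  exact ⟨n, h1, h2, ⟨by omega, h3⟩, h4⟩

end Pool.Agent.Results.MP_711652_nt.PracticalNumbersInRecordGaps
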