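import Mathlib
import Pool.Agent.H814.SQ.Main

set_option autoImplicit false

/-!
# Prime gaps of record length around sums of powers in short intervals

Let `f(M) = log M (log₂ M)² log₄ M / (log₃ M)²` (iterated natural logarithms), the size of the largest gaps
between consecutive primes up to `M` known from the starting files (`MP_3bc45c_nt.RecordGaps`); it is larger than
the published record by the factor `log₂ M / log₃ M`.

The greedy algorithm (Bambah and Chowla for two squares) shows that the interval `(M, M + C M ^ E]`,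
`E = (1 - 1/a₁) ⋯ (1 - 1/a_s)`, contains a sum `x₁ ^ a₁ + ⋯ + x_s ^ a_s` of powers; for two squares `E = 1/4`.
We show that the slightly longer interval `(M, M + M ^ (E + ε)]` contains such a sum in the middle of a gap
between primes of record size `f(M)`.  For example every interval `(M, M + M ^ (1/4 + ε)]`, `M ≥ M₀(ε)`,
contains a sum `n` of two positive squares with no prime at distance at most `κ(ε) f(M)` from `n`, every
interval `(M, M + M ^ (1/3 + ε)]` such a sum of a square and a cube, and every interval
`(M, M + M ^ ((1 - 1/k) ^ s + ε)]` such a sum of `s ≥ 2` positive `k`-th powers.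

Method.  The points `(x₁, …, x_s)` come from the greedy algorithm with freedom `Z = M ^ η` in every step: `x_j`
runs through an interval of length `Z` that depends on `x₁, …, x_{j-1}`.  This family of `Z ^ s` points is not a
box, but it is equidistributed modulo every `q ≤ Z ^ (3/5)`.  The record covering sieve in several variables
(`Pool.Agent.Y837.SV`, for boxes) is carried over to arbitrary finite families of points of `ℤ^d` with this
property (`Pool.Agent.H814.SQ.genG`): the point is `(1, 0, …, 0)` modulo the small primes up to `log Z / 10`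
and `0` modulo the others of them, and the surviving shifts are killed by primes between `(log Z)²` and
`Z ^ (1/10)`, all at once.  This needs that `∑ x_j ^ a_j = r` has `p ^ (s-1) (1 + O(p ^ (-1/2)))` solutions
modulo `p` for `r ≠ 0`.
-/

namespace Pool.Agent.Results.MP_711652_nt.SumsOfPowersInRecordGaps

/-- The record scale `f(x) = log x (log₂ x)² log₄ x / (log₃ x)²` (iterated natural logarithms). -/
noncomputable def f (x : ℝ) : ℝ :=
  Real.log x * (Real.log (Real.log x)) ^ 2 * Real.log (Real.log (Real.log (Real.log x))) /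
    (Real.log (Real.log (Real.log x))) ^ 2

/-- Let `s ≥ 2`, `a_j ≥ 2` for the `s` indices `j`, and `ε > 0`.  There are `κ > 0` and `M₀` such that for all
`M ≥ M₀` there are positive integers `x_j` whose sum of powers `n = ∑ x_j ^ a_j` satisfies
`M < n ≤ M + M ^ (∏ (1 - 1 / a_j) + ε)` and `|p - n| > κ f(M)` for every prime `p`. -/
theorem result (s : ℕ) (hs : 2 ≤ s) (a : Fin s → ℕ) (ha : ∀ j, 2 ≤ a j) (ε : ℝ) (hε : 0 < ε) :
    ∃ κ : ℝ, 0 < κ ∧ ∃ M₀ : ℕ, ∀ M : ℕ, M₀ ≤ M → ∃ x : Fin s → ℕ, (∀ j, 0 < x j) ∧
      M < ∑ j, x j ^ a j ∧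
      ((∑ j, x j ^ a j : ℕ) : ℝ) ≤ M + (M : ℝ) ^ (∏ j, (1 - 1 / (a j : ℝ)) + ε) ∧
      ∀ p : ℕ, p.Prime → κ * f M < |(p : ℝ) - ((∑ j, x j ^ a j : ℕ) : ℝ)| := by
  obtain ⟨t, rfl⟩ : ∃ t, s = t + 2 := ⟨s - 2, by omega⟩
  exact Pool.Agent.H814.SQ.main t a ha ε hε

end Pool.Agent.Results.MP_711652_nt.SumsOfPowersInRecordGaps
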